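import Pool.Agent.H22.FUniq2

namespace Pool.Agent.Results.MP_456268_al.Unique

/-- A class of groups, given as a predicate. -/
abbrev Cls := (G : Type) → [Group G] → Prop

/-- A formation of finite groups. -/
def Formation (F : Cls) : Prop :=
  (∀ (G : Type) [Group G], F G → Finite G) ∧ F Unit ∧
  (∀ (G H : Type) [Group G] [Group H], Nonempty (G ≃* H) → F G → F H) ∧
  (∀ (G : Type) [Group G] (N : Subgroup G) [N.Normal], F G → F (G ⧸ N)) ∧
  (∀ (G : Type) [Group G] [Finite G] (M N : Subgroup G) [M.Normal] [N.Normal],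
    F (G ⧸ M) → F (G ⧸ N) → F (G ⧸ (M ⊓ N)))

/-- Saturated class. -/
def Saturated (F : Cls) : Prop := ∀ (G : Type) [Group G] [Finite G], F (G ⧸ frattini G) → F G

/-- The intersection of all saturated formations containing `G₀`. -/
def OneGen (G₀ : Type) [Group G₀] : Cls := fun G _ =>
  ∀ L : Cls, Formation L → Saturated L → L G₀ → L G

/-- The `H`-residual: the intersection of all normal subgroups with quotient in `H`. -/
def residual (H : Cls) (G : Type) [Group G] : Subgroup G :=
  sInf {N | ∃ _ : N.Normal, H (G ⧸ N)}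

/-- The product of two formations. -/
def Prod (F H : Cls) : Cls := fun G _ => Finite G ∧ F (residual H G)

/-- The product of the nonempty list of formations `A :: l`. -/
def prodL : Cls → List Cls → Cls
  | A, [] => A
  | A, B :: l => Prod A (prodL B l)

/-- The formation of trivial groups. -/
def One : Cls := fun G _ => Subsingleton G

/-- Non-decomposable formation. -/
def NonDec (X : Cls) : Prop :=
  X ≠ One ∧ ¬ ∃ A B : Cls, Formation A ∧ Formation B ∧ A ≠ One ∧ B ≠ One ∧ X = Prod A B

theorem result (G₀ : Type) [Group G₀] [Finite G₀] (F : Cls)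
    (hM : ∀ (G : Type) [Group G], F G → OneGen G₀ G) (A B : Cls) (l m : List Cls)
    (hl : ∀ X ∈ A :: l, Formation X ∧ NonDec X) (hm : ∀ X ∈ B :: m, Formation X ∧ NonDec X)
    (h1 : F = prodL A l) (h2 : F = prodL B m) : A :: l = B :: m := by
  have k : ∀ X : Cls, Formation X ↔ H22.GLS.Fm X := fun X => by
    constructor
    · rintro ⟨h1, h0, h2, h4, h5⟩
      exact ⟨⟨h1, h2, h4, fun G _ _ N L _ _ e a b => h2 _ _ ⟨(QuotientGroup.quotientMulEquivOfEq
        e).trans QuotientGroup.quotientBot⟩ (h5 G N L a b)⟩, h0⟩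
    · rintro ⟨h, h0⟩
      exact ⟨h.1, h0, h.2.1, h.2.2.1, fun G _ _ M N _ _ a b =>
        ((H22.FormLat.Fq.mk M a).inf h (H22.FormLat.Fq.mk N b)).quot h _ le_rfl⟩
  have i : ∀ X : Cls, Formation X ∧ NonDec X → H22.GLS.In X := fun X ⟨a, b, c⟩ =>
    ⟨(k X).1 a, b, fun U V u v e => by
      by_contra n
      exact c ⟨U, V, (k U).2 u, (k V).2 v, fun x => n (Or.inl x), fun x => n (Or.inr x), e⟩⟩
  have p : ∀ (l : List Cls) (A : Cls), (∀ X ∈ A :: l, Formation X ∧ NonDec X) →
      H22.GLS.prd (A :: l) = prodL A l := fun l => by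
    induction l with
    | nil => exact fun A a => H22.GLS.pr_triv ((k A).1 (a A (by simp)).1)
    | cons B l ih => exact fun A a => congrArg (Prod A) (ih B fun X hX => a X (List.mem_cons_of_mem _ hX))
  refine H22.GLS.uniq_fact (e := Nat.card G₀) Nat.card_pos (fun X h => i X (hl X h))
    (fun X h => i X (hm X h)) ?_ (by rw [p l A hl, p m B hm, ← h1, ← h2])
  rw [p l A hl, ← h1]
  exact fun G _ g => hM G g _ ((k _).2 H22.GLS.star_fm) H22.GLS.star_sat ⟨‹_›, fun p _ =>
    ⟨⊥, inferInstance, IsPGroup.of_bot, fun g _ => pow_card_eq_one'⟩⟩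

end Pool.Agent.Results.MP_456268_al.Unique
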